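import Mathlib

/-!
Project PX: abstract groups, modules and rings.  Definitions and the statements of the tasks.
-/

namespace Pool.Agent.P.MP_f1a348_lc.PX

open Module
open scoped commutatorElement

section groups
variable {G : Type} [Group G]

/-- `H` normalises `N` -/
def Nm (H N : Subgroup G) : Prop := ∀ h ∈ H, ∀ x ∈ N, h * x * h⁻¹ ∈ N

def Perf (F : Subgroup G) : Prop := F ≤ ⁅F, F⁆

/-- no non-zero homomorphism to `ZMod p` -/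
def PF (p : ℕ) (X : Subgroup G) : Prop :=
  ∀ f : G → ZMod p, (∀ a ∈ X, ∀ b ∈ X, f (a * b) = f a + f b) → ∀ a ∈ X, f a = 0

/-- the subgroup generated by the elements of order prime to `p` -/
def Op (p : ℕ) (X : Subgroup G) : Subgroup G :=
  Subgroup.closure {h | h ∈ X ∧ (orderOf h).Coprime p}

/-- certificates: `H` modulo `N` is built from solvable pieces, subdirect products and
subgroups from the list `O` of total index at most `b` and depth at most `d` -/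
inductive Tame (O : List (Subgroup G)) : Bool → Subgroup G → Subgroup G → ℕ → ℕ → Prop
  | top {x H b d} : 1 ≤ b → Tame O x H ⊤ b d
  | idx {x H N E b d b' d'} : E ∈ O → (x = true → E ≤ H) → E.relIndex H * b' ≤ b → d' < d →
      Tame O true E N b' d' → Tame O x H N b d
  | inf {x H N1 N2 b d} : Nm H N1 → Nm H N2 → Tame O x H N1 b d → Tame O x H N2 b d →
      Tame O x H (N1 ⊓ N2) b d
  | weak {x H N N' b d} : Tame O x H N b d → (∀ F, Perf F → F ≤ H ⊓ N → F ≤ N') →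
      Tame O x H N' b d

/-- `σ` is multiplicative on `H` -/
structure Rp {A : Type} [Monoid A] (H : Subgroup G) (σ : G → A) : Prop where
  one : σ 1 = 1
  mul : ∀ a ∈ H, ∀ b ∈ H, σ (a * b) = σ a * σ b

variable {p : ℕ} {A : Type} [Ring A] [Algebra (ZMod p) A]

/-- the span of the image of `H` -/
def Env (p : ℕ) [Algebra (ZMod p) A] (H : Subgroup G) (σ : G → A) : Submodule (ZMod p) A :=
  Submodule.span (ZMod p) (σ '' H)

/-- the commutant -/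
def Cm (R : Submodule (ZMod p) A) : Submodule (ZMod p) A where
  carrier := {C | ∀ b ∈ R, C * b = b * C}
  add_mem' hC hD b hb := by rw [add_mul, mul_add, hC b hb, hD b hb]
  zero_mem' b _ := by simp
  smul_mem' c C hC b hb := by rw [smul_mul_assoc, mul_smul_comm, hC b hb]

/-- the centre of the span of the derived group -/
def Zc (p : ℕ) [Algebra (ZMod p) A] (H : Subgroup G) (σ : G → A) : Submodule (ZMod p) A :=
  Env p ⁅H, H⁆ σ ⊓ Cm (Env p ⁅H, H⁆ σ)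

/-- a division ring with unit `ε` -/
structure Div (Z : Submodule (ZMod p) A) (ε : A) : Prop where
  mem : ε ∈ Z
  left : ∀ z ∈ Z, ε * z = z
  right : ∀ z ∈ Z, z * ε = z
  mul : ∀ y ∈ Z, ∀ z ∈ Z, y * z ∈ Z
  inv : ∀ z ∈ Z, z ≠ 0 → ∃ y ∈ Z, y * z = ε

variable {W : Type} [AddCommGroup W] [Module (ZMod p) W]

def Irr (H : Subgroup G) (σ : G → Module.End (ZMod p) W) : Prop :=
  ∀ U : Submodule (ZMod p) W, (∀ h ∈ H, ∀ x ∈ U, σ h x ∈ U) → U = ⊥ ∨ U = ⊤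

/-- the stabiliser of one vector has a balanced invariant subspace -/
def Cut [Fact p.Prime] (H : Subgroup G) (σ : G → Module.End (ZMod p) W) : Prop :=
  ∃ (v : W) (U : Submodule (ZMod p) W), (∀ h ∈ H, σ h v = v → ∀ x ∈ U, σ h x ∈ U) ∧
    finrank (ZMod p) W ≤ 3 * finrank (ZMod p) U ∧ 3 * finrank (ZMod p) U ≤ 2 * finrank (ZMod p) W

/-- the sum of the `ε j`, `j < k`, in the dyadic interval of depth `t` around `i` -/
def dy (ε : ℕ → A) (k S t i : ℕ) : A :=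
  ∑ j ∈ (Finset.range k).filter (fun j => j / 2 ^ (S - t) = i / 2 ^ (S - t)), ε j

/-- the bound for small groups -/
def sml (w : ℕ) : ℕ := 2 ^ (2 * Nat.size w * (2 * Nat.size w + 1))

end groups

section
variable (p : ℕ) [Fact p.Prime]

/-! ### certificates -/

def S_TM : Prop := ∀ (G : Type) [Group G] [Finite G] (O : List (Subgroup G)),
  (∀ x H N b d, Tame O x H N b d → 1 ≤ b) ∧
  (∀ O' x H N b d b' d', Tame O x H N b d → (∀ E ∈ O, E ∈ O') → b ≤ b' → d ≤ d' →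
    Tame O' x H N b' d') ∧
  (∀ x H H' N b d, Tame O x H N b d → H' ≤ H → Tame O false H' N b d) ∧
  ∀ (I : Type) (s : Finset I) (N : I → Subgroup G) x H b d, 1 ≤ b →
    (∀ i ∈ s, Nm H (N i) ∧ Tame O x H (N i) b d) → Tame O x H (⨅ i ∈ s, N i) b d

def S_TF : Prop := ∀ (G : Type) [Group G] [Finite G] (O O' : List (Subgroup G))
  (L K H N : Subgroup G) (x : Bool) (b d : ℕ), Nm L K → (∀ E ∈ O, E ⊓ L ⊔ K ∈ O') →
  Tame O x H N b d → (x = true ∨ L ≤ H) → Tame O' true (H ⊓ L ⊔ K) (H ⊓ N ⊓ L ⊔ K) b d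

def S_OP : Prop := ∀ (G : Type) [Group G] [Finite G],
  (∀ g : G, ∃ s, (orderOf (g ^ p ^ s)).Coprime p) ∧
  ∀ X : Subgroup G, Op p X ≤ X ∧ PF p (Op p X) ∧ (∀ H, Nm H X → Nm H (Op p X)) ∧
    (∀ F, Perf F → F ≤ X → F ≤ Op p X) ∧ (∀ Y, Y ≤ X → Op p X ≤ Y → Op p Y = Op p X) ∧
    (PF p X → Op p X = X) ∧
    ∀ Y, Y ≤ X → Nm X Y → (∀ a ∈ X, a ^ p ∈ Y) → Op p X ≤ Y

/-! ### finite division rings -/

def S_FLD : Prop := ∀ (A : Type) [Ring A] [Algebra (ZMod p) A] [Finite A]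
  (Z : Submodule (ZMod p) A) (ε : A), Div Z ε → (∀ y ∈ Z, ∀ z ∈ Z, y * z = z * y) ∧
  ∃ ζ ∈ Z, ∀ z ∈ Z, z = 0 ∨ ∃ k, 0 < k ∧ z = ζ ^ k

/-- a group that normalises a division ring -/
def S_GAL : Prop := ∀ (G A : Type) [Group G] [Finite G] [Ring A] [Algebra (ZMod p) A] [Finite A]
  (H C : Subgroup G) (σ : G → A) (Z : Submodule (ZMod p) A) (ε : A), Rp H σ → Div Z ε →
  (∀ h ∈ H, ∀ z ∈ Z, σ h * z * σ h⁻¹ ∈ Z) → (∀ h, h ∈ C ↔ h ∈ H ∧ ∀ z ∈ Z, σ h * z = z * σ h) →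
  ⁅H, H⁆ ≤ C ∧ C.relIndex H ≤ max 1 (finrank (ZMod p) Z)

/-! ### simple modules -/

def S_CYC : Prop := ∀ (G W : Type) [Group G] [Finite G] [AddCommGroup W] [Module (ZMod p) W]
  [Finite W] (H : Subgroup G) (σ : G → Module.End (ZMod p) W)
  (R : Subalgebra (ZMod p) (Module.End (ZMod p) W)), Rp H σ → Irr H σ →
  (∀ h ∈ H, ∀ r ∈ R, σ h * r * σ h⁻¹ ∈ R) → IsSemisimpleModule R W ∧
  ((∃ v : W, ∀ y, ∃ r ∈ R, r v = y) → Cut H σ ∨ ∀ v : W, v ≠ 0 → ∀ y, ∃ r ∈ R, r v = y)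

def S_TRI : Prop := ∀ (G W : Type) [Group G] [Finite G] [AddCommGroup W] [Module (ZMod p) W]
  [Finite W] (H K : Subgroup G) (σ : G → Module.End (ZMod p) W), Rp H σ → Irr H σ → K ≤ H →
  Nm H K → Cut H σ ∨ Div (Env p K σ) 1 ∨ Div (Cm (Env p K σ)) 1

def S_SOLV : Prop := ∀ (G W : Type) [Group G] [Finite G] [AddCommGroup W] [Module (ZMod p) W]
  [Finite W] [Nontrivial W] (H K N : Subgroup G) (σ : G → Module.End (ZMod p) W), Rp H σ →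
  K ≤ H → Nm H K → Div (Cm (Env p K σ)) 1 →
  (∀ h ∈ H, ∀ z ∈ Cm (Env p K σ), σ h * z = z * σ h) →
  (∀ a ∈ K, ∀ b ∈ K, σ ⁅a, b⁆ ∈ Cm (Env p K σ)) → (∀ h ∈ H, σ h = 1 → h ∈ N) →
  N.relIndex H ≤ p ^ finrank (ZMod p) W * sml (finrank (ZMod p) W)

def S_ST1 : Prop := ∀ (G W : Type) [Group G] [Finite G] [AddCommGroup W] [Module (ZMod p) W]
  [Finite W] [Nontrivial W] (O : List (Subgroup G)) (H N C : Subgroup G)
  (σ : G → Module.End (ZMod p) W) (b d : ℕ), Rp H σ → Irr H σ → (∀ h ∈ H, h ∈ N ↔ σ h = 1) →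
  (∀ h, h ∈ C ↔ h ∈ H ∧ ∀ z ∈ Zc p H σ, σ h * z = z * σ h) → Tame O false H N b d →
  Cut H σ ∨
  (C.relIndex H ≤ finrank (ZMod p) W ∧
    2 * finrank (ZMod p) (Env p C σ) ≤ finrank (ZMod p) (Env p H σ)) ∨
  N.relIndex H ≤ p ^ finrank (ZMod p) W * sml (finrank (ZMod p) W) ∨
  ∃ E ∈ O, ∃ b' d', E.relIndex H * b' ≤ b ∧ d' < d ∧ Tame O false (H ⊓ E) N b' d'

/-- the centraliser of a normalised algebra with a simple faithful module -/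
def S_LEAF : Prop := ∀ (G W : Type) [Group G] [Finite G] [AddCommGroup W] [Module (ZMod p) W]
  [Finite W] (H C : Subgroup G) (σ : G → Module.End (ZMod p) W)
  (R : Submodule (ZMod p) (Module.End (ZMod p) W)) (X Y : Submodule (ZMod p) W), Rp H σ →
  (∀ a ∈ R, ∀ b ∈ R, a * b ∈ R) → (∀ h ∈ H, ∀ r ∈ R, σ h * r * σ h⁻¹ ∈ R) → X ≤ Y →
  (∀ h ∈ H, ∀ y ∈ Y, σ h y ∈ Y) → (∀ r ∈ R, ∀ x ∈ X, r x ∈ X) →
  (∀ x ∈ X, x ≠ 0 → ∀ y ∈ X, ∃ r ∈ R, r x = y) → (∀ r ∈ R, (∀ x ∈ X, r x = 0) → r = 0) →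
  (∀ h ∈ H, (∀ r ∈ R, σ h * r = r * σ h) → h ∈ C) →
  C.relIndex H ≤ p ^ (finrank (ZMod p) Y + finrank (ZMod p) R)

/-- the dyadic tree of stabilisers of sums of permuted idempotents -/
def S_RT : Prop := ∀ (G A : Type) [Group G] [Finite G] [Ring A] (O : List (Subgroup G))
  (H N : Subgroup G) (σ : G → A) (R : Set A) (ε : ℕ → A) (k S b : ℕ) (E : ℕ → ℕ → Subgroup G),
  Rp H σ → k ≤ 2 ^ S → 1 ≤ b → (∀ h ∈ H, ∀ r ∈ R, σ h * r * σ h⁻¹ ∈ R) →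
  (∀ h ∈ H, ∀ i < k, ∃ j < k, σ h * ε i = ε j * σ h) →
  (∀ i < k, ∀ j < k, ε i = ε j → i = j) →
  (∀ i < k, ∀ j < k, ε i * ε j = if i = j then ε i else 0) →
  (∀ j i h, h ∈ E j i ↔ h ∈ H ∧ (∀ t ≤ j, t ≤ S → σ h * dy ε k S t i = dy ε k S t i * σ h) ∧
    (S < j → ∀ r ∈ R, σ h * (r * ε i) = r * ε i * σ h)) →
  (∀ i < k, (E (S + 1) i).relIndex (E S i) ≤ b) →
  (∀ j ≤ S + 1, ∀ i < k, E j i ∈ O) →
  (∀ h, h ∈ N ↔ h ∈ H ∧ ∀ i < k, ∀ r ∈ R, σ h * (r * ε i) = r * ε i * σ h) →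
  (∀ j ≤ S + 1, ∀ i < k, (E j i).relIndex H ≤ 2 ^ 2 ^ (S + 1) * b) ∧ Nm H N ∧
    Tame O false H N (2 ^ 2 ^ (S + 1) * b) (S + 2)

/-! ### rings with involution -/

/-- rings with involution and without proper projections -/
def S_W1 : Prop := ∀ (A : Type) [Ring A] [Finite A] (s : A →+ A), (p : A) = 0 →
  (∀ a, s (s a) = a) → (∀ a b, s (a * b) = s b * s a) →
  (∀ e, e * e = e → s e = e → e = 0 ∨ e = 1) →
  ∀ t : A, ∃ l : A, s l * l = 1 ∧ IsUnit (l - t)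

/-- cancellation of projections -/
def S_W2 : Prop := ∀ (A : Type) [Ring A] [Finite A] (s : A →+ A), (p : A) = 0 →
  (∀ a, s (s a) = a) → (∀ a b, s (a * b) = s b * s a) →
  ∀ e a : A, e * e = e → s e = e → a * e = a → s a * a = e → ∃ w, s w * w = 1 ∧ w * e = a

def S_W : Prop := ∀ (A : Type) [Ring A] [Finite A] (s : A →+ A), (p : A) = 0 →
  (∀ a, s (s a) = a) → (∀ a b, s (a * b) = s b * s a) →
  ∀ b : A, ∃ w y : A, s w * w = 1 ∧ w - b = y * (s b * b - 1)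

/-! ### operators over extension fields -/

/-- on `Z` the relations `Γ u`, `Γ v` are elements of one field -/
structure Fd {M : Type} [AddCommGroup M] [Module (ZMod p) M] (Γ Γ' : Submodule (ZMod p) (M × M))
    (g : ℕ) : Prop where
  ex : ∃ (Z : Submodule (ZMod p) M) (η : M →ₗ[ZMod p] Z)
    (E : Subalgebra (ZMod p) (Module.End (ZMod p) Z)) (L L' : Module.End (ZMod p) Z),
    finrank (ZMod p) M ≤ finrank (ZMod p) Z + g ∧ (∀ z : Z, η z = z) ∧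
    (∀ f ∈ E, f ≠ 0 → Function.Injective f) ∧ finrank (ZMod p) E ≤ 2 * g ∧ L ∈ E ∧ L' ∈ E ∧
    (∀ z : Z, (z.1, (L z).1) ∈ Γ) ∧ (∀ z : Z, (z.1, (L' z).1) ∈ Γ') ∧
    (∀ y ∈ Γ, η y.2 = L (η y.1)) ∧ ∀ y ∈ Γ', η y.2 = L' (η y.1)

def S_OPP : Prop := ∀ (Q M : Type) [Finite Q] [AddCommGroup M] [Module (ZMod p) M] [Finite M]
  (Γ : Q → Submodule (ZMod p) (M × M)) (g : ℕ), 2 * g < finrank (ZMod p) M →
  p ^ (4 * g + 1) < Nat.card Q → (∀ u v, Fd p (Γ u) (Γ v) g) →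
  ∃ u v, u ≠ v ∧ ∃ Y T : Submodule (ZMod p) M, finrank (ZMod p) M ≤ finrank (ZMod p) Y + 2 * g ∧
    finrank (ZMod p) T ≤ g ∧ ∀ z ∈ Y, ∃ y y', (z, y) ∈ Γ u ∧ (z, y') ∈ Γ v ∧ y - y' ∈ T

end

/-! ### the potential -/

/-- the threshold for giant classes -/
def KK : ℕ := 1000

/-- the weight of a class of dimension `k` over a field of degree `e` at scale `m` -/
def wc (N m k e : ℕ) : ℕ := 8 * k * (if m < 2 * k then 2 else 1) - e - Nat.size N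

open Classical in
def S_ACC : Prop := ∀ (I J : Type) [Fintype I] [Fintype J] (k e : I → ℕ) (k' e' : J → ℕ)
  (μ : I → J → ℕ) (gi : J → Prop) (N m Φ Φ' : ℕ),
  (∀ A, 0 < e A ∧ k A = ∑ X, μ A X ∧ k A ≤ N ∧ k A ≤ m ∧ KK * N * e A < k A ^ 2) →
  (∀ X, gi X → 0 < e' X ∧ KK * N * e' X < k' X ^ 2 ∧ ∃ A, 0 < μ A X) →
  (∀ A X, 0 < μ A X → k' X ∣ μ A X ∧ e A ∣ μ A X ∧ (μ A X = k' X → e A ∣ e' X)) →
  Φ = ∑ A, wc N m (k A) (e A) → Φ' = ∑ X, (if gi X then wc N m (k' X) (e' X) else 0) →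
  Φ' ≤ Φ ∧
  (∀ A, m < 2 * k A → k A ≤ Φ - Φ' ∨ ∃ X, gi X ∧ μ A X = k' X ∧ (∀ A', A' ≠ A → μ A' X = 0) ∧
    k A ≤ k' X + (Φ - Φ') ∧ e' X ≤ e A + (Φ - Φ')) ∧
  (∀ A, e A ≤ Φ - Φ' ∨ ∃ X, gi X ∧ μ A X = k' X ∧ (∀ A', A' ≠ A → μ A' X = 0) ∧
    k A = k' X ∧ e A = e' X) ∧
  ∃ mn : J → Prop, (∀ X X', mn X → mn X' → (∀ A, 0 < μ A X ↔ 0 < μ A X') → X = X') ∧
    ∑ X, (if gi X then (if mn X then 0 else Nat.size N) +
      (if ∑ A, μ A X = k' X then (if ∀ A, 0 < μ A X → e A = e' X then 0 else e' X)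
        else 2 * ∑ A, μ A X) else 0) ≤ 2 * (Φ - Φ')

end Pool.Agent.P.MP_f1a348_lc.PX
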